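/-
MP_2718cf_lc, Q1 (full answer): a shortest sequence of reversals sorting a signed permutation of
size n can be computed in time O(n log n) on a word RAM with words of O(log n) bits.
-/
import Pool.Agent.SBR.Main

namespace Pool.Agent.Results.MP_2718cf_lc.SortingByReversals

open SBR

/-- `p` is (the list of the values `π_1, …, π_n` of) a signed permutation of size `n`: the absolute
values of its entries are a permutation of `1, …, n`. -/
def IsSignedPerm (n : ℕ) (p : List ℤ) : Prop := (p.map Int.natAbs).Perm (List.range' 1 n)

/-- The reversal `ρ_{i,j}`: the block of the entries number `i, …, j` (counted from 1) is reversed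
and each of its entries is negated. -/
def reversal (p : List ℤ) (i j : ℕ) : List ℤ :=
  p.take (i - 1) ++ ((p.take j).drop (i - 1)).reverse.map (fun v => -v) ++ p.drop j

/-- The identity permutation `(1, 2, …, n)`. -/
def identity (n : ℕ) : List ℤ := (List.range n).map (fun k : ℕ => (k : ℤ) + 1)

/-- The reversals given by the list `rs` of index pairs, carried out one after the other, sort `p`. -/
def SortsPerm (n : ℕ) (p : List ℤ) (rs : List (ℕ × ℕ)) : Prop :=
  (∀ r ∈ rs, 1 ≤ r.1 ∧ r.1 ≤ r.2 ∧ r.2 ≤ n) ∧
    rs.foldl (fun q r => reversal q r.1 r.2) p = identity n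

/-- `rs` is a shortest sorting sequence for `p`. -/
def ShortestSorting (n : ℕ) (p : List ℤ) (rs : List (ℕ × ℕ)) : Prop :=
  SortsPerm n p rs ∧ ∀ rs', SortsPerm n p rs' → rs.length ≤ rs'.length

/-- An integer as a word: twice its absolute value, plus one if it is negative. -/
def word (v : ℤ) : ℕ := 2 * v.natAbs + (if v < 0 then 1 else 0)

/-- A list of index pairs, written one after the other. -/
def written (rs : List (ℕ × ℕ)) : List ℕ := rs.flatMap (fun r => [r.1, r.2])

/-- There are a program `P` for the word RAM and a constant `C` such that, for every signed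
permutation `p` of every size `n` and every word length `w` with `C (n + 2) ≤ 2 ^ w`, the program,
started on the input `p`, stops after at most `C (n + 1) (log₂ (n + 1) + 1)` steps and has then
written a shortest sorting sequence for `p`. -/
theorem result : ∃ (P : List Instr) (C : ℕ), ∀ (n : ℕ) (p : List ℤ), IsSignedPerm n p →
    ∀ w : ℕ, C * (n + 2) ≤ 2 ^ w →
    ∃ (T : ℕ) (rs : List (ℕ × ℕ)), T ≤ C * (n + 1) * (Nat.log 2 (n + 1) + 1) ∧
      Halted P ((step w P)^[T] (initCfg (p.map word))) ∧
      ((step w P)^[T] (initCfg (p.map word))).out = written rs ∧ ShortestSorting n p rs := by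
  obtain ⟨P, C, h⟩ := main_thm
  refine ⟨P, C, fun n p hp w hw => ?_⟩
  obtain ⟨T, rs, h1, h2, h3, h4, h5⟩ := h n p hp w hw
  exact ⟨T, rs, h1, h2, h3, h4, h5⟩

end Pool.Agent.Results.MP_2718cf_lc.SortingByReversals
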